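import Mathlib

set_option autoImplicit false
set_option maxHeartbeats 400000

namespace K3h78.CX

variable {𝕜 : Type*} [RCLike 𝕜] {X : Type*} [NormedAddCommGroup X] [NormedSpace 𝕜 X]

open Classical in
/-- Gram–Schmidt-like recursion producing a fundamental biorthogonal system (with possible zero
entries) out of a sequence `y`. -/
noncomputable def bio (y : ℕ → X) : ℕ → X × (X →L[𝕜] 𝕜)
  | n =>
    let x : X := y n - ∑ m : Fin n, (bio y m).2 (y n) • (bio y m).1
    (x, if h : ∃ f : X →L[𝕜] 𝕜, (∀ m : Fin n, f (bio y m).1 = 0) ∧ f x = 1 then h.choose else 0)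
  termination_by n => n
  decreasing_by all_goals exact m.2

noncomputable def bx (𝕜 : Type*) [RCLike 𝕜] {X : Type*} [NormedAddCommGroup X] [NormedSpace 𝕜 X]
    (y : ℕ → X) (n : ℕ) : X := (bio (𝕜 := 𝕜) y n).1

noncomputable def bf (𝕜 : Type*) [RCLike 𝕜] {X : Type*} [NormedAddCommGroup X] [NormedSpace 𝕜 X]
    (y : ℕ → X) (n : ℕ) : X →L[𝕜] 𝕜 := (bio (𝕜 := 𝕜) y n).2

theorem bx_eq (y : ℕ → X) (n : ℕ) :
    bx 𝕜 y n = y n - ∑ m ∈ Finset.range n, bf 𝕜 y m (y n) • bx 𝕜 y m := by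
  unfold bx bf
  rw [bio, ← Fin.sum_univ_eq_sum_range (fun m => ((bio (𝕜 := 𝕜) y m).2 (y n)) • (bio (𝕜 := 𝕜) y m).1)]

open Classical in
theorem bf_eq (y : ℕ → X) (n : ℕ) :
    bf 𝕜 y n = if h : ∃ f : X →L[𝕜] 𝕜, (∀ m : Fin n, f (bx 𝕜 y m) = 0) ∧ f (bx 𝕜 y n) = 1
      then h.choose else 0 := by
  conv_lhs => unfold bf
  rw [bio]
  have h : bx 𝕜 y n = y n - ∑ m : Fin n, (bio (𝕜 := 𝕜) y m).2 (y n) • (bio (𝕜 := 𝕜) y m).1 := by
    unfold bx
    rw [bio]
  simp only [h]
  rfl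

/-- A vector outside a finite-dimensional subspace is separated from it. -/
theorem sep (p : Submodule 𝕜 X) [FiniteDimensional 𝕜 p] (x : X) (hx : x ∉ p) :
    ∃ f : X →L[𝕜] 𝕜, (∀ z ∈ p, f z = 0) ∧ f x = 1 := by
  have : IsClosed (p : Set X) := p.closed_of_finiteDimensional
  have hq : p.mkQ x ≠ 0 := by
    rw [Submodule.mkQ_apply, Ne, Submodule.Quotient.mk_eq_zero]
    exact hx
  obtain ⟨g, hg⟩ := SeparatingDual.exists_eq_one (R := 𝕜) hq
  refine ⟨g.comp p.mkQL, ?_, ?_⟩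
  · intro z hz
    have : p.mkQ z = 0 := by
      rw [Submodule.mkQ_apply, Submodule.Quotient.mk_eq_zero]
      exact hz
    show g (p.mkQ z) = 0
    rw [this, map_zero]
  · exact hg

theorem bio_props (y : ℕ → X) (n : ℕ) :
    (∀ m < n, bf 𝕜 y m (bx 𝕜 y n) = 0) ∧ (∀ m < n, bf 𝕜 y n (bx 𝕜 y m) = 0) ∧
      (bx 𝕜 y n ≠ 0 → bf 𝕜 y n (bx 𝕜 y n) = 1) ∧ (bx 𝕜 y n = 0 → bf 𝕜 y n = 0) := by
  induction n using Nat.strong_induction_on with
  | _ n ih =>
    have hzero : bx 𝕜 y n = 0 → bf 𝕜 y n = 0 := by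
      intro h0
      rw [bf_eq, dif_neg]
      rintro ⟨f, -, hf⟩
      rw [h0, map_zero] at hf
      exact zero_ne_one hf
    have hA : ∀ m < n, bf 𝕜 y m (bx 𝕜 y n) = 0 := by
      intro m hm
      rw [bx_eq, map_sub, map_sum]
      rw [Finset.sum_eq_single m]
      · rw [map_smul, smul_eq_mul]
        by_cases h0 : bx 𝕜 y m = 0
        · rw [(ih m hm).2.2.2 h0]
          simp
        · rw [(ih m hm).2.2.1 h0, mul_one, sub_self]
      · intro j hj hjm
        rw [map_smul, smul_eq_mul]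
        have hj' := Finset.mem_range.mp hj
        rcases lt_or_gt_of_ne hjm with h | h
        · rw [(ih m hm).2.1 j h, mul_zero]
        · rw [(ih j hj').1 m h, mul_zero]
      · intro h
        exact absurd (Finset.mem_range.mpr hm) h
    have hex : bx 𝕜 y n ≠ 0 →
        ∃ f : X →L[𝕜] 𝕜, (∀ m : Fin n, f (bx 𝕜 y m) = 0) ∧ f (bx 𝕜 y n) = 1 := by
      intro h0
      let p : Submodule 𝕜 X := Submodule.span 𝕜 (Set.range fun m : Fin n => bx 𝕜 y m)
      have : FiniteDimensional 𝕜 p := FiniteDimensional.span_of_finite 𝕜 (Set.finite_range _)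
      have hnot : bx 𝕜 y n ∉ p := by
        intro hmem
        rw [Submodule.mem_span_range_iff_exists_fun] at hmem
        obtain ⟨c, hc⟩ := hmem
        apply h0
        rw [← hc]
        refine Finset.sum_eq_zero fun j _ => ?_
        by_cases hj0 : bx 𝕜 y j = 0
        · rw [hj0, smul_zero]
        · have h1 := hA j j.2
          rw [← hc, map_sum, Finset.sum_eq_single j] at h1
          · rw [map_smul, smul_eq_mul, (ih j j.2).2.2.1 hj0, mul_one] at h1
            rw [h1, zero_smul]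
          · intro k _ hk
            rw [map_smul, smul_eq_mul]
            have hk' : (k : ℕ) ≠ j := fun h => hk (Fin.ext h)
            rcases lt_or_gt_of_ne hk' with h | h
            · rw [(ih j j.2).2.1 k h, mul_zero]
            · rw [(ih k k.2).1 j h, mul_zero]
          · intro h
            exact absurd (Finset.mem_univ _) h
      obtain ⟨f, hf1, hf2⟩ := sep p _ hnot
      exact ⟨f, fun m => hf1 _ (Submodule.subset_span ⟨m, rfl⟩), hf2⟩
    refine ⟨hA, ?_, ?_, hzero⟩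
    · intro m hm
      by_cases h0 : bx 𝕜 y n = 0
      · rw [hzero h0]; simp
      · rw [bf_eq, dif_pos (hex h0)]
        exact (hex h0).choose_spec.1 ⟨m, hm⟩
    · intro h0
      rw [bf_eq, dif_pos (hex h0)]
      exact (hex h0).choose_spec.2

/-- Every separable normed space has a fundamental biorthogonal sequence (with zeros). -/
theorem exists_bio (𝕜 : Type*) [RCLike 𝕜] (X : Type*) [NormedAddCommGroup X] [NormedSpace 𝕜 X]
    [TopologicalSpace.SeparableSpace X] :
    ∃ (x : ℕ → X) (f : ℕ → X →L[𝕜] 𝕜), (∀ n m, n ≠ m → f n (x m) = 0) ∧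
      (∀ n, x n ≠ 0 → f n (x n) = 1) ∧ (∀ n, x n = 0 → f n = 0) ∧
      Dense (Submodule.span 𝕜 (Set.range x) : Set X) := by
  let y : ℕ → X := TopologicalSpace.denseSeq X
  refine ⟨bx 𝕜 y, bf 𝕜 y, ?_, ?_, ?_, ?_⟩
  · intro n m h
    rcases lt_or_gt_of_ne h with h | h
    · exact (bio_props y m).1 n h
    · exact (bio_props y n).2.1 m h
  · exact fun n => (bio_props y n).2.2.1
  · exact fun n => (bio_props y n).2.2.2
  · refine (TopologicalSpace.denseRange_denseSeq X).mono ?_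
    rintro _ ⟨n, rfl⟩
    have h : y n = bx 𝕜 y n + ∑ m ∈ Finset.range n, bf 𝕜 y m (y n) • bx 𝕜 y m := by
      rw [bx_eq (𝕜 := 𝕜) y n]; abel
    show y n ∈ (Submodule.span 𝕜 (Set.range (bx 𝕜 y)) : Set X)
    rw [h]
    refine Submodule.add_mem _ (Submodule.subset_span ⟨n, rfl⟩) (Submodule.sum_mem _ fun m _ => ?_)
    exact Submodule.smul_mem _ _ (Submodule.subset_span ⟨m, rfl⟩)

end K3h78.CX
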