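import Pool.Agent.K3h78.CX.A1

set_option autoImplicit false
set_option maxHeartbeats 400000
set_option linter.unusedSectionVars false

namespace K3h78.CX

open Filter Topology

/-- `T` is convex-cyclic: the convex hull of some orbit is dense. -/
def ConvexCyclic {𝕜 : Type*} [RCLike 𝕜] {X : Type*} [NormedAddCommGroup X] [NormedSpace 𝕜 X]
    [NormedSpace ℝ X] (T : X →L[𝕜] X) : Prop :=
  ∃ x : X, Dense (convexHull ℝ (Set.range fun n : ℕ => (T ^ n) x))

variable {𝕜 : Type*} [RCLike 𝕜] {X : Type*} [NormedAddCommGroup X] [NormedSpace 𝕜 X]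

/-- partial sums used to build the weights -/
noncomputable def wA (x : ℕ → X) (f : ℕ → X →L[𝕜] 𝕜) (n : ℕ) : ℝ :=
  ∑ m ∈ Finset.range (n + 1), (1 + ‖f m‖ * ‖x m‖)

noncomputable def we (x : ℕ → X) (f : ℕ → X →L[𝕜] 𝕜) (n : ℕ) : ℝ := (1 / 2) ^ (n + 1) / wA x f n

theorem wA_pos (x : ℕ → X) (f : ℕ → X →L[𝕜] 𝕜) (n : ℕ) : 0 < wA x f n := by
  unfold wA
  refine Finset.sum_pos (fun m _ => by positivity) ⟨0, by simp⟩

theorem le_wA (x : ℕ → X) (f : ℕ → X →L[𝕜] 𝕜) (n : ℕ) : 1 + ‖f n‖ * ‖x n‖ ≤ wA x f n := by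
  unfold wA
  exact Finset.single_le_sum (f := fun m => 1 + ‖f m‖ * ‖x m‖) (fun m _ => by positivity)
    (Finset.mem_range.mpr (Nat.lt_succ_self n))

theorem wA_succ (x : ℕ → X) (f : ℕ → X →L[𝕜] 𝕜) (n : ℕ) : wA x f n ≤ wA x f (n + 1) := by
  have h : wA x f (n + 1) = wA x f n + (1 + ‖f (n+1)‖ * ‖x (n+1)‖) := by
    unfold wA
    rw [Finset.sum_range_succ]
  rw [h]
  have : 0 ≤ 1 + ‖f (n+1)‖ * ‖x (n+1)‖ := by positivity
  linarith

theorem we_pos (x : ℕ → X) (f : ℕ → X →L[𝕜] 𝕜) (n : ℕ) : 0 < we x f n := by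
  unfold we
  have := wA_pos x f n
  positivity

theorem we_anti (x : ℕ → X) (f : ℕ → X →L[𝕜] 𝕜) : StrictAnti (we x f) := by
  refine strictAnti_nat_of_succ_lt fun n => ?_
  unfold we
  have h1 := wA_pos x f n
  have h2 := wA_succ x f n
  calc (1 / 2 : ℝ) ^ (n + 1 + 1) / wA x f (n + 1) ≤ (1 / 2 : ℝ) ^ (n + 1 + 1) / wA x f n := by
        gcongr
    _ < (1 / 2 : ℝ) ^ (n + 1) / wA x f n := by
        apply div_lt_div_of_pos_right _ h1
        rw [pow_succ]
        have : (0:ℝ) < (1/2)^(n+1) := by positivity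
        linarith

theorem we_mul_le (x : ℕ → X) (f : ℕ → X →L[𝕜] 𝕜) (n : ℕ) :
    we x f n * (‖f n‖ * ‖x n‖) ≤ (1 / 2) ^ (n + 1) := by
  unfold we
  have h1 := wA_pos x f n
  have h2 := le_wA x f n
  rw [div_mul_eq_mul_div, div_le_iff₀ h1]
  have : (0:ℝ) < (1/2)^(n+1) := by positivity
  nlinarith

variable [CompleteSpace X]

/-- The diagonal-type perturbation. -/
noncomputable def opK (x : ℕ → X) (f : ℕ → X →L[𝕜] 𝕜) : X →L[𝕜] X :=
  ∑' n, (we x f n : 𝕜) • (f n).smulRight (x n)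

theorem summK (x : ℕ → X) (f : ℕ → X →L[𝕜] 𝕜) :
    Summable fun n => (we x f n : 𝕜) • (f n).smulRight (x n) := by
  have hs : Summable fun n : ℕ => (1 / 2 : ℝ) ^ (n + 1) := by
    have := summable_geometric_of_lt_one (r := (1/2:ℝ)) (by norm_num) (by norm_num)
    exact (summable_nat_add_iff 1).mpr this
  refine Summable.of_norm_bounded hs fun n => ?_
  rw [norm_smul, ContinuousLinearMap.norm_smulRight_apply, RCLike.norm_ofReal,
    abs_of_pos (we_pos x f n)]
  exact we_mul_le x f n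

theorem opK_apply (x : ℕ → X) (f : ℕ → X →L[𝕜] 𝕜) (z : X) :
    opK x f z = ∑' n, ((we x f n : 𝕜) * f n z) • x n := by
  have h := (ContinuousLinearMap.apply 𝕜 X z).map_tsum (summK x f)
  have h2 : opK x f z = ContinuousLinearMap.apply 𝕜 X z (opK x f) := rfl
  rw [h2, opK, h]
  refine tsum_congr fun n => ?_
  simp [smul_smul]

theorem summK_apply (x : ℕ → X) (f : ℕ → X →L[𝕜] 𝕜) (z : X) :
    Summable fun n => ((we x f n : 𝕜) * f n z) • x n := by
  have h := (ContinuousLinearMap.apply 𝕜 X z).summable (summK x f)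
  refine h.congr fun n => ?_
  simp [smul_smul]

noncomputable def opS (ω : 𝕜) (x : ℕ → X) (f : ℕ → X →L[𝕜] 𝕜) : X →L[𝕜] X :=
  (ω * 2) • ContinuousLinearMap.id 𝕜 X + ω • opK x f

noncomputable def rr (x : ℕ → X) (f : ℕ → X →L[𝕜] 𝕜) (n : ℕ) : ℝ := 2 + we x f n

structure Bio (x : ℕ → X) (f : ℕ → X →L[𝕜] 𝕜) : Prop where
  off : ∀ n m, n ≠ m → f n (x m) = 0
  one : ∀ n, x n ≠ 0 → f n (x n) = 1
  dense : Dense (Submodule.span 𝕜 (Set.range x) : Set X)

theorem opS_x {x : ℕ → X} {f : ℕ → X →L[𝕜] 𝕜} (h : Bio x f) (ω : 𝕜) (n : ℕ) :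
    opS ω x f (x n) = (ω * (rr x f n : 𝕜)) • x n := by
  have hK : opK x f (x n) = (we x f n : 𝕜) • x n := by
    rw [opK_apply, tsum_eq_single n]
    · by_cases h0 : x n = 0
      · simp [h0]
      · rw [h.one n h0, mul_one]
    · intro m hm
      rw [h.off m n hm, mul_zero, zero_smul]
  unfold opS rr
  rw [_root_.add_apply, _root_.smul_apply, _root_.smul_apply,
    ContinuousLinearMap.id_apply, hK, smul_smul, ← add_smul]
  congr 1
  push_cast
  ring

theorem f_opS {x : ℕ → X} {f : ℕ → X →L[𝕜] 𝕜} (h : Bio x f) (ω : 𝕜) (n : ℕ) (hn : x n ≠ 0) (z : X) :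
    f n (opS ω x f z) = (ω * (rr x f n : 𝕜)) * f n z := by
  have hK : f n (opK x f z) = (we x f n : 𝕜) * f n z := by
    rw [opK_apply, (f n).map_tsum (summK_apply x f z), tsum_eq_single n]
    · rw [map_smul, h.one n hn, smul_eq_mul, mul_one]
    · intro m hm
      rw [map_smul, h.off n m (Ne.symm hm), smul_zero]
  unfold opS rr
  rw [_root_.add_apply, _root_.smul_apply, _root_.smul_apply,
    ContinuousLinearMap.id_apply, map_add, map_smul, map_smul, hK, smul_eq_mul, smul_eq_mul]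
  push_cast
  ring

theorem opS_pow_x {x : ℕ → X} {f : ℕ → X →L[𝕜] 𝕜} (h : Bio x f) (ω : 𝕜) (n k : ℕ) :
    (opS ω x f ^ k) (x n) = ((ω * (rr x f n : 𝕜)) ^ k) • x n := by
  induction k with
  | zero => simp
  | succ k ih =>
    rw [pow_succ', mul_apply_eq_comp, ih, map_smul, opS_x h, smul_smul, pow_succ]

noncomputable def cc (x : ℕ → X) (n : ℕ) : ℝ := (1 / 2) ^ n / (1 + ‖x n‖)

theorem cc_pos (x : ℕ → X) (n : ℕ) : 0 < cc x n := by
  unfold cc; positivity

theorem cc_mul_le (x : ℕ → X) (n : ℕ) : cc x n * ‖x n‖ ≤ (1 / 2) ^ n := by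
  unfold cc
  rw [div_mul_eq_mul_div, div_le_iff₀ (by positivity)]
  have : (0:ℝ) < (1/2)^n := by positivity
  nlinarith [norm_nonneg (x n)]

theorem summ_cc (x : ℕ → X) : Summable fun n => (cc x n : 𝕜) • x n := by
  refine Summable.of_norm_bounded
    (summable_geometric_of_lt_one (r := (1/2:ℝ)) (by norm_num) (by norm_num)) fun n => ?_
  rw [norm_smul, RCLike.norm_ofReal, abs_of_pos (cc_pos x n)]
  exact cc_mul_le x n

noncomputable def vv (𝕜 : Type*) [RCLike 𝕜] {X : Type*} [NormedAddCommGroup X] [NormedSpace 𝕜 X]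
    (x : ℕ → X) : X := ∑' n, (cc x n : 𝕜) • x n

theorem φ_orbit {x : ℕ → X} {f : ℕ → X →L[𝕜] 𝕜} (h : Bio x f) (ω : 𝕜) (φ : X →L[𝕜] 𝕜) (k : ℕ) :
    φ ((opS ω x f ^ k) (vv 𝕜 x)) =
      ∑' n, (cc x n : 𝕜) * ((ω * (rr x f n : 𝕜)) ^ k * φ (x n)) := by
  have h1 := (φ.comp (opS ω x f ^ k)).map_tsum (summ_cc (𝕜 := 𝕜) x)
  have h2 : φ ((opS ω x f ^ k) (vv 𝕜 x)) = (φ.comp (opS ω x f ^ k)) (∑' n, (cc x n : 𝕜) • x n) := rfl
  rw [h2, h1]
  refine tsum_congr fun n => ?_
  rw [ContinuousLinearMap.comp_apply, map_smul, map_smul, opS_pow_x h, map_smul, smul_eq_mul,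
    smul_eq_mul]

/-- `opS ω` is convex-cyclic. -/
theorem opS_convexCyclic [NormedSpace ℝ X] [IsScalarTower ℝ 𝕜 X]
    {x : ℕ → X} {f : ℕ → X →L[𝕜] 𝕜} (h : Bio x f) (ω : 𝕜) (hω4 : ω ^ 4 = 1)
    (hω : ∀ A : 𝕜, A ≠ 0 → ∃ j : ℕ, 0 < RCLike.re (ω ^ j * A)) :
    ConvexCyclic (opS ω x f) := by
  refine ⟨vv 𝕜 x, ?_⟩
  intro z
  by_contra hz
  obtain ⟨φ, u, h1, h2⟩ := RCLike.geometric_hahn_banach_closed_point (𝕜 := 𝕜)
    (convex_convexHull ℝ (Set.range fun n : ℕ => ((opS ω x f) ^ n) (vv 𝕜 x))).closure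
    isClosed_closure hz
  have horb : ∀ k, RCLike.re (φ ((opS ω x f ^ k) (vv 𝕜 x))) < u := fun k =>
    h1 _ (subset_closure (subset_convexHull ℝ _ ⟨k, rfl⟩))
  have hex : ∃ n, φ (x n) ≠ 0 := by
    by_contra hcon
    push Not at hcon
    have hφ0 : φ = 0 := by
      apply ContinuousLinearMap.ext_on h.dense
      rintro _ ⟨n, rfl⟩
      simp [hcon n]
    have h3 := horb 0
    rw [hφ0] at h2 h3
    simp at h2 h3
    linarith
  classical
  set N := Nat.find hex with hN
  have hNne : φ (x N) ≠ 0 := Nat.find_spec hex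
  have hlt : ∀ n < N, φ (x n) = 0 := fun n hn => by
    have := Nat.find_min hex hn
    push Not at this
    exact this
  have hr : ∀ n, 0 < rr x f n := fun n => by
    unfold rr; linarith [we_pos x f n]
  have hanti : StrictAnti (rr x f) := fun a b hab => by
    unfold rr; linarith [we_anti x f hab]
  -- normalised sums
  have hB : Tendsto (fun k : ℕ => ∑' n, (cc x n : 𝕜) * (((rr x f n / rr x f N : ℝ) : 𝕜) ^ k * φ (x n)))
      atTop (𝓝 (∑' n, if n = N then (cc x N : 𝕜) * φ (x N) else 0)) := by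
    refine tendsto_tsum_of_dominated_convergence (bound := fun n => cc x n * (‖φ‖ * ‖x n‖)) ?_ ?_ ?_
    · have : Summable fun n => ‖φ‖ * (1 / 2 : ℝ) ^ n :=
        (summable_geometric_of_lt_one (r := (1/2:ℝ)) (by norm_num) (by norm_num)).mul_left _
      refine Summable.of_nonneg_of_le (fun n => ?_) (fun n => ?_) this
      · have := cc_pos x n
        positivity
      · have := cc_mul_le x n
        have h4 := norm_nonneg φ
        nlinarith
    · intro n
      rcases lt_trichotomy n N with hn | hn | hn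
      · rw [hlt n hn, if_neg hn.ne]
        simp
      · subst hn
        simp only [if_true]
        rw [div_self (hr _).ne']
        simp
      · rw [if_neg hn.ne']
        have hq : ‖((rr x f n / rr x f N : ℝ) : 𝕜)‖ < 1 := by
          rw [RCLike.norm_ofReal, abs_of_pos (div_pos (hr n) (hr N)), div_lt_one (hr N)]
          exact hanti hn
        have h5 := (tendsto_pow_atTop_nhds_zero_of_norm_lt_one hq).mul_const (φ (x n))
        have h6 := h5.const_mul (cc x n : 𝕜)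
        simpa using h6
    · refine Eventually.of_forall fun k n => ?_
      rw [norm_mul, norm_mul, norm_pow, RCLike.norm_ofReal, RCLike.norm_ofReal,
        abs_of_pos (cc_pos x n), abs_of_pos (div_pos (hr n) (hr N))]
      have hc := cc_pos x n
      rcases lt_or_ge n N with hn | hn
      · rw [hlt n hn, norm_zero, mul_zero, mul_zero]
        positivity
      · have h7 : (rr x f n / rr x f N) ^ k ≤ 1 := by
          apply pow_le_one₀ (div_pos (hr n) (hr N)).le
          rw [div_le_one (hr N)]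
          exact hanti.antitone hn
        have h8 : ‖φ (x n)‖ ≤ ‖φ‖ * ‖x n‖ := φ.le_opNorm _
        have h9 := norm_nonneg (φ (x n))
        have h10 : 0 ≤ (rr x f n / rr x f N) ^ k := by
          have := div_pos (hr n) (hr N)
          positivity
        apply mul_le_mul_of_nonneg_left _ hc.le
        nlinarith
  rw [tsum_ite_eq] at hB
  set A : 𝕜 := (cc x N : 𝕜) * φ (x N) with hA
  have hA0 : A ≠ 0 := mul_ne_zero (by exact_mod_cast (cc_pos x N).ne') hNne
  obtain ⟨j, hj⟩ := hω A hA0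
  have hval : ∀ m : ℕ, RCLike.re (φ ((opS ω x f ^ (4 * m + j)) (vv 𝕜 x))) =
      rr x f N ^ (4 * m + j) * RCLike.re (ω ^ j *
        ∑' n, (cc x n : 𝕜) * (((rr x f n / rr x f N : ℝ) : 𝕜) ^ (4 * m + j) * φ (x n))) := by
    intro m
    rw [φ_orbit h]
    have e : ∑' n, (cc x n : 𝕜) * ((ω * (rr x f n : 𝕜)) ^ (4 * m + j) * φ (x n)) =
        ((rr x f N ^ (4 * m + j) : ℝ) : 𝕜) * (ω ^ j *
        ∑' n, (cc x n : 𝕜) * (((rr x f n / rr x f N : ℝ) : 𝕜) ^ (4 * m + j) * φ (x n))) := by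
      rw [← mul_assoc, ← tsum_mul_left]
      refine tsum_congr fun n => ?_
      have e1 : ω ^ (4 * m + j) = ω ^ j := by
        rw [pow_add, pow_mul, hω4, one_pow, one_mul]
      have e2 : ((rr x f n / rr x f N : ℝ) : 𝕜) ^ (4 * m + j) =
          (rr x f n : 𝕜) ^ (4 * m + j) / (rr x f N : 𝕜) ^ (4 * m + j) := by
        push_cast
        rw [div_pow]
      have e3 : (rr x f N : 𝕜) ^ (4 * m + j) ≠ 0 := pow_ne_zero _ (by exact_mod_cast (hr N).ne')
      rw [mul_pow, e1, e2]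
      push_cast
      field_simp
    rw [e, RCLike.re_ofReal_mul]
  have hk : Tendsto (fun m : ℕ => 4 * m + j) atTop atTop := by
    apply tendsto_atTop_atTop.mpr
    intro b
    exact ⟨b, fun a ha => by omega⟩
  have hre : Tendsto (fun m : ℕ => RCLike.re (ω ^ j *
        ∑' n, (cc x n : 𝕜) * (((rr x f n / rr x f N : ℝ) : 𝕜) ^ (4 * m + j) * φ (x n))))
      atTop (𝓝 (RCLike.re (ω ^ j * A))) := by
    have := (hB.comp hk).const_mul (ω ^ j)
    exact (RCLike.continuous_re.tendsto _).comp this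
  have hpow : Tendsto (fun m : ℕ => rr x f N ^ (4 * m + j)) atTop atTop := by
    refine (tendsto_pow_atTop_atTop_of_one_lt ?_).comp hk
    unfold rr
    linarith [we_pos x f N]
  have hfin := hpow.atTop_mul_pos hj hre
  obtain ⟨m, hm⟩ := (hfin.eventually_gt_atTop u).exists
  rw [← hval m] at hm
  exact absurd (horb (4 * m + j)) (not_lt.mpr hm.le)

/-- If a non-zero real functional is non-negative along every orbit, the operator is not
convex-cyclic. -/
theorem not_convexCyclic [NormedSpace ℝ X] (T : X →L[𝕜] X)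
    (H : ∀ x : X, ∃ ψ : X →L[ℝ] ℝ, ψ ≠ 0 ∧ ∀ n : ℕ, 0 ≤ ψ ((T ^ n) x)) : ¬ ConvexCyclic T := by
  rintro ⟨x, hx⟩
  obtain ⟨ψ, hψ0, hψ⟩ := H x
  have hsub : convexHull ℝ (Set.range fun n : ℕ => (T ^ n) x) ⊆ {z | 0 ≤ ψ z} := by
    apply convexHull_min
    · rintro _ ⟨n, rfl⟩
      exact hψ n
    · intro a ha b hb s t hs ht hst
      simp only [Set.mem_ofPred_eq] at *
      rw [map_add, map_smul, map_smul]
      have := mul_nonneg hs ha
      have := mul_nonneg ht hb
      simp only [smul_eq_mul]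
      linarith
  have hcl : IsClosed {z : X | 0 ≤ ψ z} := isClosed_le continuous_const ψ.continuous
  have huniv : ∀ z : X, 0 ≤ ψ z := fun z => by
    have h1 : z ∈ closure (convexHull ℝ (Set.range fun n : ℕ => (T ^ n) x)) := hx z
    exact (closure_minimal hsub hcl) h1
  apply hψ0
  ext z
  have h1 := huniv z
  have h2 := huniv (-z)
  rw [map_neg] at h2
  have : ψ z = 0 := by linarith
  simp [this]

end K3h78.CX
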