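import Pool.Agent.K3h78.CX.A2

set_option autoImplicit false
set_option maxHeartbeats 400000

namespace K3h78.CX

open Filter Topology

theorem exists_ne_zero_index {𝕜 : Type*} [RCLike 𝕜] {X : Type*} [NormedAddCommGroup X]
    [NormedSpace 𝕜 X] [Nontrivial X] {x : ℕ → X}
    (h : Dense (Submodule.span 𝕜 (Set.range x) : Set X)) : ∃ n, x n ≠ 0 := by
  by_contra hcon
  push Not at hcon
  have h1 : Submodule.span 𝕜 (Set.range x) = ⊥ := by
    rw [Submodule.span_eq_bot]
    rintro _ ⟨n, rfl⟩
    exact hcon n
  rw [h1, Submodule.bot_coe] at h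
  have h2 : closure ({0} : Set X) = Set.univ := h.closure_eq
  rw [closure_singleton] at h2
  obtain ⟨z, hz⟩ := exists_ne (0 : X)
  have : z ∈ ({0} : Set X) := by rw [h2]; trivial
  exact hz this

theorem real_case (X : Type*) [NormedAddCommGroup X] [NormedSpace ℝ X] [CompleteSpace X]
    [TopologicalSpace.SeparableSpace X] [Nontrivial X] :
    ∃ S : X →L[ℝ] X, ConvexCyclic S ∧ ¬ ConvexCyclic (S ^ 2) := by
  obtain ⟨x, f, h1, h2, -, h4⟩ := exists_bio ℝ X
  have hB : Bio x f := ⟨h1, h2, h4⟩
  refine ⟨opS (-1) x f, opS_convexCyclic hB (-1) (by norm_num) ?_, ?_⟩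
  · intro A hA
    rcases lt_or_gt_of_ne hA with h | h
    · exact ⟨1, by simpa using h⟩
    · exact ⟨0, by simpa using h⟩
  · obtain ⟨n0, hn0⟩ := exists_ne_zero_index (𝕜 := ℝ) h4
    have hf0 : f n0 ≠ 0 := by
      intro h
      have := h2 n0 hn0
      rw [h] at this
      simp at this
    apply not_convexCyclic
    intro z
    have hval : ∀ n : ℕ, f n0 (((opS (-1) x f ^ 2) ^ n) z) = (rr x f n0 ^ 2) ^ n * f n0 z := by
      intro n
      induction n with
      | zero => simp
      | succ n ih =>
        have e : ((opS (-1) x f ^ 2) ^ (n + 1)) z =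
            opS (-1) x f (opS (-1) x f (((opS (-1) x f ^ 2) ^ n) z)) := by
          rw [pow_succ' (opS (-1) x f ^ 2) n, pow_two]
          rfl
        rw [e, f_opS hB (-1) n0 hn0, f_opS hB (-1) n0 hn0, ih]
        simp only [RCLike.ofReal_real_eq_id, id]
        ring
    by_cases hz : 0 ≤ f n0 z
    · refine ⟨f n0, hf0, fun n => ?_⟩
      rw [hval]
      positivity
    · refine ⟨-f n0, neg_ne_zero.mpr hf0, fun n => ?_⟩
      rw [_root_.neg_apply, hval]
      push Not at hz
      have : 0 ≤ (rr x f n0 ^ 2) ^ n := by positivity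
      nlinarith

theorem complex_case (X : Type*) [NormedAddCommGroup X] [NormedSpace ℂ X] [CompleteSpace X]
    [TopologicalSpace.SeparableSpace X] [Nontrivial X] :
    ∃ S : X →L[ℂ] X, ConvexCyclic S ∧ ¬ ConvexCyclic (S ^ 2) := by
  obtain ⟨x, f, h1, h2, -, h4⟩ := exists_bio ℂ X
  have hB : Bio x f := ⟨h1, h2, h4⟩
  refine ⟨opS Complex.I x f, opS_convexCyclic hB Complex.I Complex.I_pow_four ?_, ?_⟩
  · intro A hA
    rcases lt_trichotomy A.re 0 with h | h | h
    · refine ⟨2, ?_⟩
      simp only [Complex.I_sq]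
      simpa using h
    · have him : A.im ≠ 0 := fun h' => hA (Complex.ext h h')
      rcases lt_or_gt_of_ne him with h' | h'
      · exact ⟨1, by simpa using h'⟩
      · refine ⟨3, ?_⟩
        simp only [Complex.I_pow_three]
        simpa using h'
    · exact ⟨0, by simpa using h⟩
  · obtain ⟨n0, hn0⟩ := exists_ne_zero_index (𝕜 := ℂ) h4
    have hone := h2 n0 hn0
    apply not_convexCyclic
    intro z
    have hval : ∀ n : ℕ, f n0 (((opS Complex.I x f ^ 2) ^ n) z) =
        (((-(rr x f n0 ^ 2)) ^ n : ℝ) : ℂ) * f n0 z := by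
      intro n
      induction n with
      | zero => simp
      | succ n ih =>
        have e : ((opS Complex.I x f ^ 2) ^ (n + 1)) z =
            opS Complex.I x f (opS Complex.I x f (((opS Complex.I x f ^ 2) ^ n) z)) := by
          rw [pow_succ' (opS Complex.I x f ^ 2) n, pow_two]
          rfl
        rw [e, f_opS hB Complex.I n0 hn0, f_opS hB Complex.I n0 hn0, ih]
        have hI : Complex.I * Complex.I = -1 := Complex.I_mul_I
        push_cast
        rw [pow_succ]
        simp only [RCLike.ofReal_alg, Complex.real_smul, mul_one]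
        linear_combination ((rr x f n0 : ℂ) ^ 2 * (-(rr x f n0 : ℂ) ^ 2) ^ n * f n0 z) * hI
    by_cases hz : f n0 z = 0
    · refine ⟨Complex.reCLM.comp ((f n0).restrictScalars ℝ), ?_, fun n => ?_⟩
      · intro h
        have := congrArg (fun g => g (x n0)) h
        simp [hone] at this
      · show 0 ≤ (f n0 (((opS Complex.I x f ^ 2) ^ n) z)).re
        rw [hval, hz, mul_zero]
        simp
    · refine ⟨Complex.imCLM.comp
        (((starRingEnd ℂ (f n0 z)) • f n0).restrictScalars ℝ), ?_, fun n => ?_⟩
      · intro h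
        have h5 := congrArg (fun g => g ((Complex.I * f n0 z) • x n0)) h
        simp only [ContinuousLinearMap.comp_apply, ContinuousLinearMap.coe_restrictScalars',
          _root_.smul_apply, map_smul, hone, smul_eq_mul, mul_one, Complex.imCLM_apply,
          _root_.zero_apply] at h5
        have h6 : Complex.I * f n0 z * (starRingEnd ℂ (f n0 z)) =
            Complex.I * (Complex.normSq (f n0 z) : ℂ) := by
          rw [Complex.normSq_eq_conj_mul_self]; ring
        rw [h6] at h5
        simp at h5
        exact hz h5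
      · show 0 ≤ ((starRingEnd ℂ (f n0 z)) * f n0 (((opS Complex.I x f ^ 2) ^ n) z)).im
        rw [hval]
        have h6 : (starRingEnd ℂ (f n0 z)) * ((((-(rr x f n0 ^ 2)) ^ n : ℝ) : ℂ) * f n0 z) =
            (((-(rr x f n0 ^ 2)) ^ n * Complex.normSq (f n0 z) : ℝ) : ℂ) := by
          push_cast
          rw [Complex.normSq_eq_conj_mul_self]; ring
        rw [h6, Complex.ofReal_im]

end K3h78.CX
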